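import Pool.Agent.Helper328.MfF

/-!
# A negative answer in every dimension

For every `d ≥ 1` there is a finite, compactly supported Borel measure `μ` on `ℝ^d` whose Fourier
transform is `O(|ξ|^(-1/5))`, and a bounded, compactly supported, mean zero function `f` (so `f` is
a multiple of an `H^1` atom; also its Gaussian maximal function is integrable), such that the
lacunary maximal function `sup_k |f * μ_k|` is not in weak `L^1`.
-/

set_option autoImplicit false
open MeasureTheory Set
open scoped ENNReal NNReal Real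

namespace Pool.Agent.Results.MP_f93147_an.LacunaryHardyFails

open Pool.Agent.Helper328.Mf

theorem integral_haar : ∫ x, haar x = 0 := by
  rw [haar_eq, integral_sub ((integrable_indicator_iff measurableSet_Ico).mpr (by simp))
    ((integrable_indicator_iff measurableSet_Ico).mpr (by simp)),
    integral_indicator_const _ measurableSet_Ico, integral_indicator_const _ measurableSet_Ico]
  simp

theorem gauss_prod (d : ℕ) (t : ℝ) (x : EuclideanSpace ℝ (Fin d)) :
    ∫ y, atom d (x - t • y) * Real.exp (-Real.pi * ‖y‖ ^ 2) = ∏ i, KK t (x i) := by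
  have h1 : (fun y : EuclideanSpace ℝ (Fin d) => atom d (x - t • y) * Real.exp (-Real.pi * ‖y‖ ^ 2)) =
      fun y => ∏ i, (haar (x i - t * y i) * gau (y i)) := by
    funext y
    rw [Finset.prod_mul_distrib]
    congr 1
    unfold gau
    rw [← Real.exp_sum]
    congr 1
    rw [EuclideanSpace.norm_sq_eq, Finset.mul_sum]
    apply Finset.sum_congr rfl
    intro i _
    rw [Real.norm_eq_abs, sq_abs]
  rw [h1]
  have h2 := (PiLp.volume_preserving_ofLp (Fin d)).integral_comp
    (MeasurableEquiv.toLp 2 (Fin d → ℝ)).symm.measurableEmbedding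
    (fun y : Fin d → ℝ => ∏ i, (haar (x i - t * y i) * gau (y i)))
  rw [h2]
  exact integral_fintype_prod_volume_eq_prod (fun i => fun y : ℝ => haar (x i - t * y) * gau y)

theorem gauss_max_finite (d : ℕ) :
    (∫⁻ x : EuclideanSpace ℝ (Fin d), ⨆ (t : ℝ) (_ : 0 < t),
      ‖∫ y, atom d (x - t • y) * Real.exp (-Real.pi * ‖y‖ ^ 2)‖ₑ) < ⊤ := by
  have hint : Integrable (fun x : Fin d → ℝ => ∏ i, (75 * (1 + (x i) ^ 2)⁻¹)) volume :=
    Integrable.fintype_prod (𝕜 := ℝ) (f := fun _ : Fin d => fun z : ℝ => 75 * (1 + z ^ 2)⁻¹)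
      (μ := fun _ : Fin d => (volume : Measure ℝ))
      (fun _ => integrable_inv_one_add_sq.const_mul 75)
  have hint2 : Integrable (fun x : EuclideanSpace ℝ (Fin d) => ∏ i, (75 * (1 + (x i) ^ 2)⁻¹)) volume :=
    ((PiLp.volume_preserving_ofLp (Fin d)).integrable_comp_emb
      (MeasurableEquiv.toLp 2 (Fin d → ℝ)).symm.measurableEmbedding).mpr hint
  refine lt_of_le_of_lt (lintegral_mono fun x => ?_) hint2.lintegral_lt_top
  refine iSup₂_le fun t ht => ?_
  rw [gauss_prod, Real.enorm_eq_ofReal_abs, Finset.abs_prod]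
  apply ENNReal.ofReal_le_ofReal
  apply Finset.prod_le_prod
  · intro i _; exact abs_nonneg _
  · intro i _; exact KK_bound t (x i) ht

theorem atom_measurable (d : ℕ) : Measurable (atom d) := by
  unfold atom
  apply Finset.measurable_prod
  intro i _
  exact measurable_haar.comp ((measurable_pi_apply i).comp (WithLp.measurable_ofLp 2 _))

theorem atom_abs_le (d : ℕ) (x : EuclideanSpace ℝ (Fin d)) : |atom d x| ≤ 1 := by
  unfold atom
  rw [Finset.abs_prod]
  exact Finset.prod_le_one (fun i _ => abs_nonneg _) (fun i _ => abs_haar_le _)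

theorem atom_compact (d : ℕ) : HasCompactSupport (atom d) := by
  have h : IsCompact (Set.pi univ (fun _ : Fin d => Icc (-1 : ℝ) 1)) :=
    isCompact_univ_pi fun _ => isCompact_Icc
  apply HasCompactSupport.intro (h.image (PiLp.continuous_toLp 2 (fun _ : Fin d => ℝ)))
  intro x hx
  have hx' : ¬ ∀ i, x i ∈ Icc (-1 : ℝ) 1 := by
    intro hall
    exact hx ⟨WithLp.ofLp x, fun i _ => hall i, rfl⟩
  push Not at hx'
  obtain ⟨i, hi⟩ := hx'
  unfold atom
  apply Finset.prod_eq_zero (Finset.mem_univ i)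
  unfold haar
  rw [if_neg, if_neg]
  · rintro ⟨h1, h2⟩
    exact hi ⟨h1, by linarith⟩
  · rintro ⟨h1, h2⟩
    exact hi ⟨by linarith, h2.le⟩

theorem atom_integral (d : ℕ) (hd : 0 < d) : ∫ x, atom d x = 0 := by
  unfold atom
  have h2 := (PiLp.volume_preserving_ofLp (Fin d)).integral_comp
    (MeasurableEquiv.toLp 2 (Fin d → ℝ)).symm.measurableEmbedding
    (fun y : Fin d → ℝ => ∏ i, haar (y i))
  rw [h2]
  rw [integral_fintype_prod_volume_eq_prod (fun _ : Fin d => haar)]
  exact Finset.prod_eq_zero (Finset.mem_univ (⟨0, hd⟩ : Fin d)) integral_haar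

/-- In every dimension `d ≥ 1` there are a compactly supported finite Borel measure `μ` with power
Fourier decay and one function `f` in `H^1(ℝ^d)` (bounded, compactly supported, of integral zero,
with integrable Gaussian maximal function) whose lacunary maximal function `sup_k |f * μ_k|` is not
in weak `L^1`. -/
theorem result (d : ℕ) (hd : 0 < d) :
    ∃ μ : Measure (EuclideanSpace ℝ (Fin d)), IsFiniteMeasure μ ∧
      (∃ K : Set (EuclideanSpace ℝ (Fin d)), IsCompact K ∧ μ Kᶜ = 0) ∧
      (∃ C ε : ℝ, 0 < ε ∧ ∀ ξ : EuclideanSpace ℝ (Fin d), ξ ≠ 0 →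
        ‖∫ y, Complex.exp (((-2 * Real.pi * (inner ℝ y ξ) : ℝ) : ℂ) * Complex.I) ∂μ‖
          ≤ C * ‖ξ‖ ^ (-ε)) ∧
      ∃ f : EuclideanSpace ℝ (Fin d) → ℝ,
        Measurable f ∧ (∀ x, |f x| ≤ 1) ∧ HasCompactSupport f ∧ (∫ x, f x = 0) ∧
        (∫⁻ x, ⨆ (t : ℝ) (_ : 0 < t),
          ‖∫ y, f (x - t • y) * Real.exp (-Real.pi * ‖y‖ ^ 2)‖ₑ) < ⊤ ∧
        ∀ A : ℝ≥0, ∃ s : ℝ, 0 < s ∧
          (A : ℝ≥0∞) < ENNReal.ofReal s *
            volume {x | ENNReal.ofReal s < ⨆ k : ℤ, ‖∫ y, f (x - ((2 : ℝ) ^ k) • y) ∂μ‖ₑ} :=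
  ⟨mu d, inferInstance, ⟨box d, isCompact_box d, mu_compl d⟩, fourier_decay d hd,
    atom d, atom_measurable d, atom_abs_le d, atom_compact d, atom_integral d hd,
    gauss_max_finite d, weak_fail d hd⟩

end Pool.Agent.Results.MP_f93147_an.LacunaryHardyFails
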